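import Pool.Agent.LR64.Gw

/-!
# The number of vertices with two paths: second moment
-/

set_option linter.unusedSectionVars false
set_option linter.style.whitespace false

open Finset

noncomputable section

namespace LR64

open LR82

variable {n : ℕ}

open Classical in
/-- the number of vertices with a property -/
def Nu (Q : Fin n → Finset (Sym2 (Fin n)) → Prop) (A : Finset (Sym2 (Fin n))) : ℝ :=
  ∑ v : Fin n, if Q v A then 1 else 0

theorem Ex_Nu (p : ℝ) (E : Finset (Sym2 (Fin n))) (Q : Fin n → Finset (Sym2 (Fin n)) → Prop) :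
    Ex p E (Nu Q) = ∑ v, Pr p E (Q v) := by
  classical
  unfold Nu
  rw [Ex_sum]
  rfl

theorem Ex_Nu_sq (p : ℝ) (E : Finset (Sym2 (Fin n))) (Q : Fin n → Finset (Sym2 (Fin n)) → Prop) :
    Ex p E (fun A => Nu Q A ^ 2) = ∑ v, ∑ w, Pr p E (fun A => Q v A ∧ Q w A) := by
  classical
  have h : (fun A => Nu Q A ^ 2) = fun A => ∑ v : Fin n, ∑ w : Fin n,
      (if Q v A ∧ Q w A then (1:ℝ) else 0) := by
    funext A
    unfold Nu
    rw [sq, Finset.sum_mul_sum]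
    refine Finset.sum_congr rfl fun v _ => Finset.sum_congr rfl fun w _ => ?_
    by_cases h1 : Q v A <;> by_cases h2 : Q w A <;> simp [h1, h2]
  rw [h, Ex_sum]
  refine Finset.sum_congr rfl fun v _ => ?_
  rw [Ex_sum]
  refine Finset.sum_congr rfl fun w _ => ?_
  rw [Pr_eq]

/-- Chebyshev, upper tail -/
theorem cheb {p : ℝ} (h0 : 0 ≤ p) (h1 : p ≤ 1) {E : Finset (Sym2 (Fin n))}
    {F : Finset (Sym2 (Fin n)) → ℝ} {m t : ℝ} (ht : 0 < t) (hm : m = Ex p E F) :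
    Pr p E (fun A => m + t ≤ F A) ≤ (Ex p E (fun A => F A ^ 2) - m ^ 2) / t ^ 2 := by
  have h2 := Pr_markov (p := p) h0 h1 (E := E) (P := fun A => m + t ≤ F A)
    (F := fun A => (F A - m) ^ 2) (t := t ^ 2) (by positivity) (fun A _ => by positivity)
    (fun A _ h => by
      have : t ≤ F A - m := by linarith
      exact pow_le_pow_left₀ ht.le this 2)
  refine h2.trans (le_of_eq ?_)
  congr 1
  have h3 : (fun A => (F A - m) ^ 2) = fun A => (F A ^ 2 + (-2 * m) * F A) + m ^ 2 := by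
    funext A
    ring
  rw [h3, Ex_add, Ex_add, Ex_mul, Ex_const, ← hm]
  ring

theorem Pr_TP_tail {ε : ℝ} {K n : ℕ} (he : 0 < ε) (he1 : ε ≤ 1) (hn : 48 ≤ n)
    (hK : 2 / ε ^ 2 ≤ K)
    (htt : ∀ {v w : Fin n}, v ≠ w → ∀ {A : Finset (Sym2 (Fin n))}, TP K v A → TP K w A →
      Occ (TP K v) (TP K w) A ∨ Conn (2 * K) v w A)
    (hconn : ∀ {p : ℝ}, 0 ≤ p → p ≤ 1 → ∑ v : Fin n, ∑ w : Fin n,
      Pr p (Epairs n) (Conn (2 * K) v w) ≤ ∑ L ∈ Finset.Icc 1 (2 * K), (n:ℝ) ^ (L + 1) * p ^ L) :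
    Pr ((1 + ε) / n) (Epairs n) (fun A => (16 + 1 / 2) * ε ^ 2 * n ≤ Nu (TP K) A) ≤
      (1 + 2 * K * 2 ^ (2 * K)) * 4 / ε ^ 4 / n := by
  have hn' : (48:ℝ) ≤ n := by exact_mod_cast hn
  have hn0 : (0:ℝ) < n := by linarith
  set p : ℝ := (1 + ε) / n with hp
  have hp0 : 0 ≤ p := by positivity
  have hnp : n * p = 1 + ε := by
    rw [hp]
    field_simp
  have hp1 : p ≤ 1 / 2 := by
    rw [hp, div_le_div_iff₀ hn0 (by norm_num)]
    linarith
  have hp2 : p ≤ 1 := by linarith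
  have a1 : ∀ v : Fin n, Pr p (Epairs n) (TP K v) ≤ 16 * ε ^ 2 := by
    intro v
    have h1 := Pr_TP hp0 hp1 K v
    have h2 := th_le he hn hp2 hK
    have h3 := (th_mem (n := n) hp0 hp2 K).1
    nlinarith
  set m : ℝ := ∑ v : Fin n, Pr p (Epairs n) (TP K v) with hm
  have a2 : m ≤ 16 * ε ^ 2 * n := by
    have : m ≤ ∑ v : Fin n, 16 * ε ^ 2 := Finset.sum_le_sum fun v _ => a1 v
    rw [Finset.sum_const, Finset.card_univ, Fintype.card_fin, nsmul_eq_mul] at this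
    linarith
  have a3 : Ex p (Epairs n) (fun A => Nu (TP K) A ^ 2) ≤
      m ^ 2 + n + ∑ L ∈ Finset.Icc 1 (2 * K), (n:ℝ) ^ (L + 1) * p ^ L := by
    rw [Ex_Nu_sq]
    have b1 : ∀ v w : Fin n, Pr p (Epairs n) (fun A => TP K v A ∧ TP K w A) ≤
        Pr p (Epairs n) (TP K v) * Pr p (Epairs n) (TP K w) + (if v = w then 1 else 0) +
          Pr p (Epairs n) (Conn (2 * K) v w) := by
      intro v w
      have c0 := Pr_nonneg hp0 hp2 (Epairs n) (Conn (2 * K) v w)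
      have c1 := Pr_nonneg hp0 hp2 (Epairs n) (TP K v)
      have c2 := Pr_nonneg hp0 hp2 (Epairs n) (TP K w)
      by_cases h : v = w
      · rw [if_pos h]
        have := Pr_le_one hp0 hp2 (Epairs n) (fun A => TP K v A ∧ TP K w A)
        nlinarith [mul_nonneg c1 c2]
      · rw [if_neg h]
        have c3 : Pr p (Epairs n) (fun A => TP K v A ∧ TP K w A) ≤
            Pr p (Epairs n) (fun A => Occ (TP K v) (TP K w) A ∨ Conn (2 * K) v w A) :=
          Pr_mono hp0 hp2 fun A _ hA => htt h hA.1 hA.2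
        have c4 := Pr_or hp0 hp2 (Epairs n) (Occ (TP K v) (TP K w)) (Conn (2 * K) v w)
        have c5 := Pr_bk hp0 hp1 (Epairs n) (TP K v) (TP K w) (fun I J h h' => TP_mono h h')
          (fun I J h h' => TP_mono h h')
        linarith
    have b2 : ∑ v : Fin n, ∑ w : Fin n, Pr p (Epairs n) (fun A => TP K v A ∧ TP K w A) ≤
        ∑ v : Fin n, ∑ w : Fin n, (Pr p (Epairs n) (TP K v) * Pr p (Epairs n) (TP K w) +
          (if v = w then 1 else 0) + Pr p (Epairs n) (Conn (2 * K) v w)) :=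
      Finset.sum_le_sum fun v _ => Finset.sum_le_sum fun w _ => b1 v w
    have b3 : ∑ v : Fin n, ∑ w : Fin n, (Pr p (Epairs n) (TP K v) * Pr p (Epairs n) (TP K w) +
          (if v = w then (1:ℝ) else 0) + Pr p (Epairs n) (Conn (2 * K) v w)) =
        m ^ 2 + n + ∑ v : Fin n, ∑ w : Fin n, Pr p (Epairs n) (Conn (2 * K) v w) := by
      simp only [Finset.sum_add_distrib]
      rw [← Finset.sum_mul_sum, ← hm, sq]
      simp
    rw [b3] at b2
    exact b2.trans (add_le_add_right (hconn hp0 hp2) _)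
  have a4 : ∑ L ∈ Finset.Icc 1 (2 * K), (n:ℝ) ^ (L + 1) * p ^ L ≤ n * (2 * K * 2 ^ (2 * K)) := by
    have b1 : ∀ L ∈ Finset.Icc 1 (2 * K), (n:ℝ) ^ (L + 1) * p ^ L ≤ n * 2 ^ (2 * K) := by
      intro L hL
      rw [Finset.mem_Icc] at hL
      have : (n:ℝ) ^ (L + 1) * p ^ L = n * (1 + ε) ^ L := by
        rw [← hnp, mul_pow, pow_succ]
        ring
      rw [this]
      refine mul_le_mul_of_nonneg_left ?_ hn0.le
      calc (1 + ε) ^ L ≤ 2 ^ L := pow_le_pow_left₀ (by linarith) (by linarith) L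
        _ ≤ 2 ^ (2 * K) := pow_le_pow_right₀ (by norm_num) hL.2
    refine (Finset.sum_le_sum b1).trans (le_of_eq ?_)
    rw [Finset.sum_const, Nat.card_Icc, nsmul_eq_mul]
    push_cast
    ring
  have a5 := cheb hp0 hp2 (E := Epairs n) (F := Nu (TP K)) (m := m) (t := 1 / 2 * ε ^ 2 * n)
    (by positivity) (by rw [hm, Ex_Nu])
  have a6 : Pr p (Epairs n) (fun A => (16 + 1 / 2) * ε ^ 2 * n ≤ Nu (TP K) A) ≤
      Pr p (Epairs n) (fun A => m + 1 / 2 * ε ^ 2 * n ≤ Nu (TP K) A) :=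
    Pr_mono hp0 hp2 fun A _ h => by
      have : m + 1 / 2 * ε ^ 2 * n ≤ (16 + 1 / 2) * ε ^ 2 * n := by linarith
      exact this.trans h
  refine a6.trans (a5.trans ?_)
  have a7 : Ex p (Epairs n) (fun A => Nu (TP K) A ^ 2) - m ^ 2 ≤
      n * (1 + 2 * K * 2 ^ (2 * K)) := by
    nlinarith [a3, a4]
  have a8 : (1 + 2 * K * 2 ^ (2 * K)) * 4 / ε ^ 4 / n =
      n * (1 + 2 * K * 2 ^ (2 * K)) / (1 / 2 * ε ^ 2 * n) ^ 2 := by
    field_simp
    ring
  rw [a8]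
  exact div_le_div_of_nonneg_right a7 (by positivity)

/-- Markov for the number of vertices with a tadpole -/
theorem Pr_Tad_tail {ε : ℝ} {K n : ℕ} (he : 0 < ε) (he1 : ε ≤ 1) (hn : 48 ≤ n)
    (htad : ∀ {p : ℝ}, 0 ≤ p → p ≤ 1 → ∑ v : Fin n, Pr p (Epairs n) (Tad (2 * K) v) ≤
      ∑ L ∈ Finset.Icc 2 (2 * K), L * (n:ℝ) ^ (L + 1) * p ^ (L + 1)) :
    Pr ((1 + ε) / n) (Epairs n) (fun A => 1 / 2 * ε ^ 2 * n ≤ Nu (Tad (2 * K)) A) ≤
      (2 * K * (2 * K) * 2 ^ (2 * K + 1)) * 2 / ε ^ 2 / n := by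
  have hn' : (48:ℝ) ≤ n := by exact_mod_cast hn
  have hn0 : (0:ℝ) < n := by linarith
  set p : ℝ := (1 + ε) / n with hp
  have hp0 : 0 ≤ p := by positivity
  have hnp : n * p = 1 + ε := by
    rw [hp]
    field_simp
  have hp2 : p ≤ 1 := by
    rw [hp, div_le_one hn0]
    linarith
  have a1 := Pr_markov (p := p) hp0 hp2 (E := Epairs n)
    (P := fun A => 1 / 2 * ε ^ 2 * n ≤ Nu (Tad (2 * K)) A) (F := Nu (Tad (2 * K)))
    (t := 1 / 2 * ε ^ 2 * n) (by positivity) (fun A _ => by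
      unfold Nu
      exact Finset.sum_nonneg fun v _ => by split_ifs <;> norm_num) (fun A _ h => h)
  refine a1.trans ?_
  rw [Ex_Nu]
  have a2 : ∑ L ∈ Finset.Icc 2 (2 * K), L * (n:ℝ) ^ (L + 1) * p ^ (L + 1) ≤
      2 * K * (2 * K) * 2 ^ (2 * K + 1) := by
    have b1 : ∀ L ∈ Finset.Icc 2 (2 * K), L * (n:ℝ) ^ (L + 1) * p ^ (L + 1) ≤
        2 * K * 2 ^ (2 * K + 1) := by
      intro L hL
      rw [Finset.mem_Icc] at hL
      rw [mul_assoc, ← mul_pow, hnp]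
      have c1 : (L:ℝ) ≤ 2 * K := by exact_mod_cast hL.2
      have c2 : (1 + ε) ^ (L + 1) ≤ 2 ^ (2 * K + 1) :=
        (pow_le_pow_left₀ (by linarith) (by linarith) _).trans
          (pow_le_pow_right₀ (by norm_num) (by omega))
      exact mul_le_mul c1 c2 (by positivity) (by positivity)
    refine (Finset.sum_le_sum b1).trans ?_
    rw [Finset.sum_const, Nat.card_Icc, nsmul_eq_mul]
    have c3 : ((2 * K + 1 - 2 : ℕ) : ℝ) ≤ 2 * K := by
      have : 2 * K + 1 - 2 ≤ 2 * K := by omega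
      exact_mod_cast this
    calc ((2 * K + 1 - 2 : ℕ) : ℝ) * (2 * K * 2 ^ (2 * K + 1)) ≤
          2 * K * (2 * K * 2 ^ (2 * K + 1)) := mul_le_mul_of_nonneg_right c3 (by positivity)
      _ = 2 * K * (2 * K) * 2 ^ (2 * K + 1) := by ring
  have a3 := (htad hp0 hp2).trans a2
  have a4 : (2 * K * (2 * K) * 2 ^ (2 * K + 1)) * 2 / ε ^ 2 / n =
      2 * K * (2 * K) * 2 ^ (2 * K + 1) / (1 / 2 * ε ^ 2 * n) := by
    field_simp
  rw [a4]
  exact div_le_div_of_nonneg_right a3 (by positivity)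

end LR64
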