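import Pool.Agent.LR82.Coin
import Pool.Agent.LR82.Bk

/-!
# Upper bound for reconstructible sets: definitions
-/

set_option linter.unusedSectionVars false
set_option linter.style.whitespace false

open Finset

noncomputable section

namespace LR64

open LR82

variable {n : ℕ}

/-- There is a path of `k` edges of `A` which starts at `v` and whose other vertices are distinct
elements of `W`. -/
def LP : ℕ → Finset (Fin n) → Fin n → Finset (Sym2 (Fin n)) → Prop
  | 0, _, _, _ => True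
  | k + 1, W, v, A => ∃ u ∈ W, s(v, u) ∈ A ∧ LP k (W.erase u) u A

theorem LP_mono : ∀ (k : ℕ) {W W' : Finset (Fin n)} {v : Fin n} {A A' : Finset (Sym2 (Fin n))},
    W ⊆ W' → A ⊆ A' → LP k W v A → LP k W' v A'
  | 0, _, _, _, _, _, _, _, _ => trivial
  | k + 1, _, _, _, _, _, hW, hA, ⟨u, hu, h1, h2⟩ =>
    ⟨u, hW hu, hA h1, LP_mono k (Finset.erase_subset_erase u hW) hA h2⟩

/-- `u 0, …, u L` is a path in `A`. -/
def Pth (A : Finset (Sym2 (Fin n))) (L : ℕ) (u : ℕ → Fin n) : Prop :=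
  (∀ i j, i ≤ L → j ≤ L → u i = u j → i = j) ∧ ∀ i < L, s(u i, u (i + 1)) ∈ A

/-- Two edge-disjoint paths with `K` edges start at `v`. -/
def TP (K : ℕ) (v : Fin n) : Finset (Sym2 (Fin n)) → Prop :=
  Occ (LP K (univ.erase v) v) (LP K (univ.erase v) v)

/-- A path with `L ≤ J` edges starts at `v` and its last vertex has another neighbour on it. -/
def Tad (J : ℕ) (v : Fin n) (A : Finset (Sym2 (Fin n))) : Prop :=
  ∃ (L : ℕ) (u : ℕ → Fin n) (i : ℕ), L ≤ J ∧ Pth A L u ∧ u 0 = v ∧ i + 2 ≤ L ∧ s(u L, u i) ∈ A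

/-- There is a path with between one and `J` edges from `v` to `w`. -/
def Conn (J : ℕ) (v w : Fin n) (A : Finset (Sym2 (Fin n))) : Prop :=
  ∃ (L : ℕ) (u : ℕ → Fin n), 1 ≤ L ∧ L ≤ J ∧ Pth A L u ∧ u 0 = v ∧ u L = w

/-- All placements by injective maps with the distances of the pairs in `P` agree on `U` with
isometries of the line. -/
def IRec (x : Fin n → ℝ) (P : Finset (Sym2 (Fin n))) (U : Finset (Fin n)) : Prop :=
  ∀ f : Fin n → ℝ, Function.Injective f → (∀ u v, s(u, v) ∈ P → |f u - f v| = |x u - x v|) →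
    ∃ s t : ℝ, (s = 1 ∨ s = -1) ∧ ∀ u ∈ U, f u = s * x u + t

/-- No three-term progression. -/
def No3 (x : Fin n → ℝ) : Prop := ∀ i j k, x i + x k = 2 * x j → i = k

/-- Inside `W` every vertex has two neighbours. -/
def Core (P : Finset (Sym2 (Fin n))) (W : Finset (Fin n)) : Prop :=
  ∀ v ∈ W, ∃ a ∈ W, ∃ b ∈ W, a ≠ b ∧ a ≠ v ∧ b ≠ v ∧ s(v, a) ∈ P ∧ s(v, b) ∈ P

end LR64
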