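import Pool.Agent.LR64.Defs

/-!
# In a core, two edge-disjoint long paths or a tadpole start at every vertex
-/

set_option linter.unusedSectionVars false
set_option linter.style.whitespace false

open Finset

noncomputable section

namespace LR64

open LR82

variable {n : ℕ}

theorem Tad_mono {J J' : ℕ} (hJ : J ≤ J') {v : Fin n} {A : Finset (Sym2 (Fin n))}
    (h : Tad J v A) : Tad J' v A := by
  obtain ⟨L, u, i, h1, h2, h3, h4, h5⟩ := h
  exact ⟨L, u, i, h1.trans hJ, h2, h3, h4, h5⟩

/-- a sequence of vertices gives `LP` -/
theorem LP_of_seq {A : Finset (Sym2 (Fin n))} (u : ℕ → Fin n) : ∀ (k j : ℕ)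
    (W : Finset (Fin n)), (∀ i, j < i → i ≤ j + k → u i ∈ W) →
    (∀ i i', j < i → i ≤ j + k → j < i' → i' ≤ j + k → u i = u i' → i = i') →
    (∀ i, j ≤ i → i < j + k → s(u i, u (i + 1)) ∈ A) → LP k W (u j) A
  | 0, _, _, _, _, _ => trivial
  | k + 1, j, W, hW, hi, he => by
    refine ⟨u (j + 1), hW (j + 1) (by omega) (by omega), he j le_rfl (by omega), ?_⟩
    refine LP_of_seq u k (j + 1) _ (fun i h1 h2 => ?_) (fun i i' h1 h2 h3 h4 h5 => ?_)
      (fun i h1 h2 => ?_)
    · refine mem_erase.2 ⟨fun h => ?_, hW i (by omega) (by omega)⟩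
      have := hi i (j + 1) (by omega) (by omega) (by omega) (by omega) h
      omega
    · exact hi i i' (by omega) (by omega) (by omega) (by omega) h5
    · exact he i (by omega) (by omega)

/-- greedy extension -/
theorem ext_path {P : Finset (Sym2 (Fin n))} {W : Finset (Fin n)} (h : Core P W) {v a : Fin n}
    (hv : v ∈ W) (ha : a ∈ W) (hav : a ≠ v) (hE : s(v, a) ∈ P) : ∀ K : ℕ, 1 ≤ K →
    (∃ u : ℕ → Fin n, Pth P K u ∧ u 0 = v ∧ u 1 = a ∧ ∀ i ≤ K, u i ∈ W) ∨ Tad K v P := by
  intro K hK
  induction K, hK using Nat.le_induction with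
  | base =>
    left
    refine ⟨fun i => if i = 0 then v else a, ⟨?_, ?_⟩, by simp, by simp, ?_⟩
    · intro i j hi hj hij
      have hi' : i = 0 ∨ i = 1 := by omega
      have hj' : j = 0 ∨ j = 1 := by omega
      rcases hi' with rfl | rfl <;> rcases hj' with rfl | rfl
      · rfl
      · exact absurd (by simpa using hij) (Ne.symm hav)
      · exact absurd (by simpa using hij) hav
      · rfl
    · intro i hi
      have : i = 0 := by omega
      subst this
      simpa using hE
    · intro i hi
      have hi' : i = 0 ∨ i = 1 := by omega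
      rcases hi' with rfl | rfl
      · simpa using hv
      · simpa using ha
  | succ K hK ih =>
    rcases ih with ⟨u, ⟨hinj, hedge⟩, h0, h1, hW⟩ | hT
    · obtain ⟨c, hcW, hcv, hcu, hcP⟩ : ∃ c ∈ W, c ≠ u K ∧ c ≠ u (K - 1) ∧ s(u K, c) ∈ P := by
        obtain ⟨a', ha', b', hb', hab, haK, hbK, hPa, hPb⟩ := h (u K) (hW K le_rfl)
        by_cases hc : a' = u (K - 1)
        · exact ⟨b', hb', hbK, fun hb => hab (hc.trans hb.symm), hPb⟩
        · exact ⟨a', ha', haK, hc, hPa⟩
      by_cases hold : ∃ i ≤ K, u i = c
      · right
        obtain ⟨i, hi, hic⟩ := hold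
        have hiK : i ≠ K := fun hh => hcv (by rw [← hic, hh])
        have hiK' : i ≠ K - 1 := fun hh => hcu (by rw [← hic, hh])
        refine ⟨K, u, i, by omega, ⟨hinj, hedge⟩, h0, by omega, ?_⟩
        rw [hic]
        exact hcP
      · left
        push Not at hold
        have hlow : ∀ i, i ≤ K → (if i ≤ K then u i else c) = u i := fun i hi => if_pos hi
        have hhigh : (if K + 1 ≤ K then u (K + 1) else c) = c := if_neg (by omega)
        refine ⟨fun i => if i ≤ K then u i else c, ⟨?_, ?_⟩, ?_, ?_, ?_⟩
        · intro i j hi hj hij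
          rcases Nat.lt_or_ge K i with hi1 | hi1 <;> rcases Nat.lt_or_ge K j with hj1 | hj1
          · omega
          · have e1 : i = K + 1 := by omega
            subst e1
            simp only [hhigh, hlow j hj1] at hij
            exact absurd hij.symm (hold j hj1)
          · have e1 : j = K + 1 := by omega
            subst e1
            simp only [hhigh, hlow i hi1] at hij
            exact absurd hij (hold i hi1)
          · simp only [hlow i hi1, hlow j hj1] at hij
            exact hinj i j hi1 hj1 hij
        · intro i hi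
          rcases Nat.lt_or_ge i K with hi1 | hi1
          · simp only [hlow i (by omega), hlow (i + 1) (by omega)]
            exact hedge i hi1
          · have e1 : i = K := by omega
            subst e1
            simp only [hhigh, hlow i le_rfl]
            exact hcP
        · simpa using h0
        · simp only [hlow 1 hK]
          exact h1
        · intro i hi
          rcases Nat.lt_or_ge K i with hi1 | hi1
          · have e1 : i = K + 1 := by omega
            subst e1
            simp only [hhigh]
            exact hcW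
          · simp only [hlow i hi1]
            exact hW i hi1
    · exact Or.inr (Tad_mono (by omega) hT)

/-- The dichotomy at a vertex of a core. -/
theorem core_tp {K : ℕ} {P : Finset (Sym2 (Fin n))} {W : Finset (Fin n)} (h : Core P W)
    {v : Fin n} (hv : v ∈ W) : TP K v P ∨ Tad (2 * K) v P := by
  classical
  rcases Nat.eq_zero_or_pos K with hK0 | hK
  · left
    subst hK0
    exact ⟨∅, ∅, empty_subset _, empty_subset _, disjoint_empty_left _, trivial, trivial⟩
  obtain ⟨a, ha, b, hb, hab, hav, hbv, hPa, hPb⟩ := h v hv
  rcases ext_path h hv ha hav hPa K hK with ⟨x, ⟨xinj, xedge⟩, x0, x1, xW⟩ | hT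
  swap
  · exact Or.inr (Tad_mono (by omega) hT)
  rcases ext_path h hv hb hbv hPb K hK with ⟨y, ⟨yinj, yedge⟩, y0, y1, yW⟩ | hT
  swap
  · exact Or.inr (Tad_mono (by omega) hT)
  by_cases hcom : ∃ s, 1 ≤ s ∧ s ≤ K ∧ ∃ t, 1 ≤ t ∧ t ≤ K ∧ x s = y t
  · right
    obtain ⟨s, ⟨hs1, hsK, t, ht1, htK, hst⟩, hmin⟩ :
        ∃ s, (1 ≤ s ∧ s ≤ K ∧ ∃ t, 1 ≤ t ∧ t ≤ K ∧ x s = y t) ∧
          ∀ s' < s, ¬ (1 ≤ s' ∧ s' ≤ K ∧ ∃ t, 1 ≤ t ∧ t ≤ K ∧ x s' = y t) :=
      ⟨Nat.find hcom, Nat.find_spec hcom, fun s' hs' => Nat.find_min hcom hs'⟩
    have hst3 : 3 ≤ s + t := by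
      by_contra hc
      have e1 : s = 1 := by omega
      have e2 : t = 1 := by omega
      subst e1; subst e2
      exact hab (x1.symm.trans (hst.trans y1))
    -- the combined path
    have hl : ∀ i, i ≤ s → (if i ≤ s then x i else y (s + t - i)) = x i := fun i hi => if_pos hi
    have hr : ∀ i, s ≤ i → i ≤ s + t - 1 →
        (if i ≤ s then x i else y (s + t - i)) = y (s + t - i) := by
      intro i hi hi'
      by_cases hc : i ≤ s
      · have e1 : i = s := by omega
        subst e1
        rw [if_pos le_rfl, hst]
        congr 1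
        omega
      · rw [if_neg hc]
    refine ⟨s + t - 1, fun i => if i ≤ s then x i else y (s + t - i), 0, by omega,
      ⟨?_, ?_⟩, ?_, by omega, ?_⟩
    · have key : ∀ i j, i ≤ s → s < j → j ≤ s + t - 1 → x i ≠ y (s + t - j) := by
        intro i j hi hj hj' hij
        rcases Nat.eq_zero_or_pos i with h0 | h0
        · subst h0
          rw [x0, ← y0] at hij
          have := yinj 0 (s + t - j) (by omega) (by omega) hij
          omega
        · rcases Nat.lt_or_ge i s with h1 | h1
          · exact hmin i h1 ⟨h0, by omega, s + t - j, by omega, by omega, hij⟩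
          · have e1 : i = s := by omega
            subst e1
            rw [hst] at hij
            have := yinj t (i + t - j) htK (by omega) hij
            omega
      intro i j hi hj hij
      rcases Nat.lt_or_ge s i with hi1 | hi1 <;> rcases Nat.lt_or_ge s j with hj1 | hj1
      · simp only [hr i hi1.le hi, hr j hj1.le hj] at hij
        have := yinj (s + t - i) (s + t - j) (by omega) (by omega) hij
        omega
      · simp only [hr i hi1.le hi, hl j hj1] at hij
        exact absurd hij.symm (key j i hj1 hi1 hi)
      · simp only [hr j hj1.le hj, hl i hi1] at hij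
        exact absurd hij (key i j hi1 hj1 hj)
      · simp only [hl i hi1, hl j hj1] at hij
        exact xinj i j (by omega) (by omega) hij
    · intro i hi
      rcases Nat.lt_or_ge i s with h1 | h1
      · simp only [hl i h1.le, hl (i + 1) h1]
        exact xedge i (by omega)
      · simp only [hr i h1 (by omega), hr (i + 1) (by omega) (by omega)]
        have e1 : s + t - i = (s + t - (i + 1)) + 1 := by omega
        rw [e1, Sym2.eq_swap]
        exact yedge _ (by omega)
    · simp only [hl 0 (by omega)]
      exact x0
    · simp only [hr (s + t - 1) (by omega) le_rfl, hl 0 (by omega)]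
      have e1 : s + t - (s + t - 1) = 0 + 1 := by omega
      rw [e1, x0, ← y0, Sym2.eq_swap]
      exact yedge 0 (by omega)
  · left
    push Not at hcom
    refine ⟨(range K).image fun i => s(x i, x (i + 1)), (range K).image fun i => s(y i, y (i + 1)),
      ?_, ?_, ?_, ?_, ?_⟩
    · intro e he
      obtain ⟨i, hi, rfl⟩ := mem_image.1 he
      exact xedge i (mem_range.1 hi)
    · intro e he
      obtain ⟨i, hi, rfl⟩ := mem_image.1 he
      exact yedge i (mem_range.1 hi)
    · rw [Finset.disjoint_left]
      intro e he he'
      obtain ⟨i, hi, rfl⟩ := mem_image.1 he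
      obtain ⟨j, hj, hij⟩ := mem_image.1 he'
      have hi := mem_range.1 hi
      have hj := mem_range.1 hj
      have hmem : x (i + 1) ∈ s(y j, y (j + 1)) := by
        rw [hij]
        exact Sym2.mem_mk_right _ _
      rcases Sym2.mem_iff.1 hmem with hc | hc
      · rcases Nat.eq_zero_or_pos j with h0 | h0
        · subst h0
          rw [y0, ← x0] at hc
          have := xinj (i + 1) 0 (by omega) (by omega) hc
          omega
        · exact hcom (i + 1) (by omega) (by omega) j h0 (by omega) hc
      · exact hcom (i + 1) (by omega) (by omega) (j + 1) (by omega) (by omega) hc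
    · have := LP_of_seq (A := (range K).image fun i => s(x i, x (i + 1))) x K 0 (univ.erase v)
        (fun i h1 h2 => mem_erase.2 ⟨fun hh => by
          have := xinj i 0 (by omega) (by omega) (hh.trans x0.symm)
          omega, mem_univ _⟩)
        (fun i i' _ h2 _ h4 h5 => xinj i i' (by omega) (by omega) h5)
        (fun i _ h2 => mem_image_of_mem _ (mem_range.2 (by omega)))
      rw [x0] at this
      exact this
    · have := LP_of_seq (A := (range K).image fun i => s(y i, y (i + 1))) y K 0 (univ.erase v)
        (fun i h1 h2 => mem_erase.2 ⟨fun hh => by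
          have := yinj i 0 (by omega) (by omega) (hh.trans y0.symm)
          omega, mem_univ _⟩)
        (fun i i' _ h2 _ h4 h5 => yinj i i' (by omega) (by omega) h5)
        (fun i _ h2 => mem_image_of_mem _ (mem_range.2 (by omega)))
      rw [y0] at this
      exact this

end LR64
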