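import Pool.Agent.LR64.Defs

/-!
# Paths with `k` edges from a vertex: an upper bound for the probability
-/

set_option linter.unusedSectionVars false
set_option linter.style.whitespace false

open Finset

noncomputable section

namespace LR64

open LR82

section Harris

variable {α : Type*} [DecidableEq α]

/-- the inequality of Harris for decreasing functions -/
theorem harris {p : ℝ} (h0 : 0 ≤ p) (h1 : p ≤ 1) (E : Finset α) (F G : Finset α → ℝ)
    (hF : ∀ I J, I ⊆ J → F J ≤ F I) (hG : ∀ I J, I ⊆ J → G J ≤ G I) :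
    Ex p E F * Ex p E G ≤ Ex p E (fun A => F A * G A) := by
  induction E using Finset.induction_on generalizing F G with
  | empty => simp [Ex_empty]
  | insert e E he ih =>
    have a1 := ih F G hF hG
    have a2 := ih (fun A => F (insert e A)) (fun A => G (insert e A))
      (fun I J h => hF _ _ (Finset.insert_subset_insert e h))
      (fun I J h => hG _ _ (Finset.insert_subset_insert e h))
    have a3 : Ex p E (fun A => F (insert e A)) ≤ Ex p E F :=
      Ex_mono h0 h1 fun A _ => hF _ _ (Finset.subset_insert e A)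
    have a4 : Ex p E (fun A => G (insert e A)) ≤ Ex p E G :=
      Ex_mono h0 h1 fun A _ => hG _ _ (Finset.subset_insert e A)
    rw [Ex_insert p he F, Ex_insert p he G, Ex_insert p he]
    have a5 := mul_le_mul_of_nonneg_left a1 (by linarith : (0:ℝ) ≤ 1 - p)
    have a6 := mul_le_mul_of_nonneg_left a2 h0
    have a7 : 0 ≤ (1 - p) * p * ((Ex p E F - Ex p E (fun A => F (insert e A))) *
        (Ex p E G - Ex p E (fun A => G (insert e A)))) :=
      mul_nonneg (mul_nonneg (by linarith) h0) (mul_nonneg (by linarith) (by linarith))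
    nlinarith [a5, a6, a7]

/-- decreasing events are positively correlated -/
theorem harris_all {ι : Type*} [DecidableEq ι] {p : ℝ} (h0 : 0 ≤ p) (h1 : p ≤ 1) (E : Finset α)
    (I : Finset ι) (Q : ι → Finset α → Prop) (hQ : ∀ i, ∀ A B, A ⊆ B → Q i A → Q i B) :
    ∏ i ∈ I, (1 - Pr p E (Q i)) ≤ Pr p E (fun A => ∀ i ∈ I, ¬ Q i A) := by
  classical
  induction I using Finset.induction_on with
  | empty =>
    rw [Finset.prod_empty, Pr_eq]
    simp [Ex_const]
  | insert i I hi ih =>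
    rw [Finset.prod_insert hi]
    have b1 := harris h0 h1 E (fun A => if ¬ Q i A then (1:ℝ) else 0)
      (fun A => if ∀ j ∈ I, ¬ Q j A then (1:ℝ) else 0) (fun A B h => by
        by_cases hA : Q i A
        · simp [hA, hQ i A B h hA]
        · simp only [hA, not_false_eq_true, if_true]
          split_ifs <;> norm_num) (fun A B h => by
        by_cases hA : ∀ j ∈ I, ¬ Q j A
        · rw [if_pos hA]
          split_ifs <;> norm_num
        · rw [if_neg hA, if_neg]
          intro hB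
          exact hA fun j hj hq => hB j hj (hQ j A B h hq))
    have b2 : Ex p E (fun A => if ¬ Q i A then (1:ℝ) else 0) = 1 - Pr p E (Q i) := by
      rw [← Pr_compl, Pr_eq]
    have b3 : Ex p E (fun A => if ∀ j ∈ I, ¬ Q j A then (1:ℝ) else 0) =
        Pr p E (fun A => ∀ j ∈ I, ¬ Q j A) := by
      rw [Pr_eq]
    have b4 : Ex p E (fun A => (if ¬ Q i A then (1:ℝ) else 0) *
        (if ∀ j ∈ I, ¬ Q j A then (1:ℝ) else 0)) = Pr p E (fun A => ∀ j ∈ insert i I, ¬ Q j A) := by
      rw [Pr_eq]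
      refine Ex_congr fun A _ => ?_
      by_cases hA : Q i A
      · rw [if_neg (not_not.2 hA), zero_mul, if_neg]
        exact fun h => h i (Finset.mem_insert_self _ _) hA
      · by_cases hB : ∀ j ∈ I, ¬ Q j A
        · rw [if_pos hA, if_pos hB, one_mul, if_pos]
          exact Finset.forall_mem_insert _ _ _ |>.2 ⟨hA, hB⟩
        · rw [if_neg hB, mul_zero, if_neg]
          exact fun h => hB fun j hj => h j (Finset.mem_insert_of_mem hj)
    rw [b2, b3, b4] at b1
    have b5 : 0 ≤ 1 - Pr p E (Q i) := by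
      have := Pr_le_one h0 h1 E (Q i)
      linarith
    exact (mul_le_mul_of_nonneg_left ih b5).trans b1

end Harris

variable {n : ℕ}

/-- the bound for the probability -/
def th (n : ℕ) (p : ℝ) : ℕ → ℝ
  | 0 => 1
  | k + 1 => 1 - (1 - p * th n p k) ^ n

theorem th_mem {n : ℕ} {p : ℝ} (h0 : 0 ≤ p) (h1 : p ≤ 1) : ∀ k, 0 ≤ th n p k ∧ th n p k ≤ 1
  | 0 => ⟨by norm_num [th], by norm_num [th]⟩
  | k + 1 => by
    obtain ⟨h2, h3⟩ := th_mem (n := n) h0 h1 k
    have h4 : 0 ≤ 1 - p * th n p k := by nlinarith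
    have h5 : 1 - p * th n p k ≤ 1 := by nlinarith
    have h6 := pow_le_one₀ (n := n) h4 h5
    have h7 := pow_nonneg h4 n
    simp only [th]
    constructor <;> linarith

/-- a path which avoids `v` does not use the pairs of `v` -/
theorem LP_erase {v z : Fin n} : ∀ (k : ℕ) {W : Finset (Fin n)} {u : Fin n}
    {A : Finset (Sym2 (Fin n))}, v ∉ W → v ≠ u → LP k W u A → LP k W u (A.erase s(v, z))
  | 0, _, _, _, _, _, _ => trivial
  | k + 1, W, u, A, hW, hu, ⟨w, hw, h1, h2⟩ => by
    have hvw : v ≠ w := fun h => hW (h ▸ hw)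
    refine ⟨w, hw, Finset.mem_erase.2 ⟨?_, h1⟩,
      LP_erase k (fun h => hW (Finset.mem_of_mem_erase h)) hvw h2⟩
    intro h
    rw [Sym2.eq_iff] at h
    rcases h with ⟨h, _⟩ | ⟨_, h⟩
    · exact hu h.symm
    · exact hvw h.symm

theorem Pr_LP {p : ℝ} (h0 : 0 ≤ p) (h1 : p ≤ 1 / 2) : ∀ (k : ℕ) (W : Finset (Fin n)) (v : Fin n),
    v ∉ W → Pr p (Epairs n) (LP k W v) ≤ th n p k
  | 0, W, v, _ => Pr_le_one h0 (by linarith) _ _
  | k + 1, W, v, hv => by
    have hp1 : p ≤ 1 := by linarith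
    obtain ⟨ht0, ht1⟩ := th_mem (n := n) h0 hp1 k
    have key : ∀ u ∈ W, Pr p (Epairs n) (fun A => s(v, u) ∈ A ∧ LP k (W.erase u) u A) ≤
        p * th n p k := by
      intro u hu
      have hvu : v ≠ u := fun h => hv (h ▸ hu)
      have c1 : Pr p (Epairs n) (fun A => s(v, u) ∈ A ∧ LP k (W.erase u) u A) ≤
          Pr p (Epairs n) (Occ (fun A => {s(v, u)} ⊆ A) (LP k (W.erase u) u)) := by
        refine Pr_mono h0 hp1 fun A _ ⟨hA1, hA2⟩ => ?_
        refine ⟨{s(v, u)}, A.erase s(v, u), Finset.singleton_subset_iff.2 hA1,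
          Finset.erase_subset _ _, ?_, subset_rfl, ?_⟩
        · rw [Finset.disjoint_singleton_left]
          exact Finset.notMem_erase _ _
        · exact LP_erase k (fun h => hv (Finset.mem_of_mem_erase h)) hvu hA2
      have c2 := Pr_bk h0 h1 (Epairs n) (fun A => {s(v, u)} ⊆ A) (LP k (W.erase u) u)
        (fun I J h h' => h'.trans h) (fun I J h h' => LP_mono k subset_rfl h h')
      have c3 : Pr p (Epairs n) (fun A => {s(v, u)} ⊆ A) = p := by
        rw [Pr_subset p (Finset.singleton_subset_iff.2 (mem_Epairs.2 hvu)),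
          Finset.card_singleton, pow_one]
      rw [c3] at c2
      exact c1.trans (c2.trans (mul_le_mul_of_nonneg_left
        (Pr_LP h0 h1 k (W.erase u) u (Finset.notMem_erase u W)) h0))
    have d1 := harris_all h0 hp1 (Epairs n) W
      (fun u A => s(v, u) ∈ A ∧ LP k (W.erase u) u A)
      (fun u A B h h' => ⟨h h'.1, LP_mono k subset_rfl h h'.2⟩)
    have d2 : Pr p (Epairs n) (LP (k + 1) W v) = 1 - Pr p (Epairs n)
        (fun A => ∀ u ∈ W, ¬ (s(v, u) ∈ A ∧ LP k (W.erase u) u A)) := by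
      rw [← Pr_compl]
      congr 1
      funext A
      simp only [LP, not_forall, not_not, exists_prop]
    have d3 : (1 - p * th n p k) ^ W.card ≤ ∏ u ∈ W, (1 - Pr p (Epairs n)
        (fun A => s(v, u) ∈ A ∧ LP k (W.erase u) u A)) := by
      rw [← Finset.prod_const]
      refine Finset.prod_le_prod (fun u _ => ?_) fun u hu => ?_
      · nlinarith
      · linarith [key u hu]
    have d4 : (1 - p * th n p k) ^ n ≤ (1 - p * th n p k) ^ W.card := by
      refine pow_le_pow_of_le_one (by nlinarith) (by nlinarith) ?_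
      simpa using Finset.card_le_univ W
    rw [d2]
    simp only [th]
    linarith

/-- two edge-disjoint paths -/
theorem Pr_TP {p : ℝ} (h0 : 0 ≤ p) (h1 : p ≤ 1 / 2) (K : ℕ) (v : Fin n) :
    Pr p (Epairs n) (TP K v) ≤ th n p K ^ 2 := by
  have e1 := Pr_LP h0 h1 K (Finset.univ.erase v) v (Finset.notMem_erase v _)
  have e2 := Pr_bk h0 h1 (Epairs n) (LP K (Finset.univ.erase v) v) (LP K (Finset.univ.erase v) v)
    (fun I J h h' => LP_mono K subset_rfl h h') (fun I J h h' => LP_mono K subset_rfl h h')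
  have e3 := Pr_nonneg h0 (by linarith : p ≤ 1) (Epairs n) (LP K (Finset.univ.erase v) v)
  rw [sq]
  exact e2.trans (mul_le_mul e1 e1 e3 (e3.trans e1))

theorem TP_mono {K : ℕ} {v : Fin n} {I J : Finset (Sym2 (Fin n))} (h : I ⊆ J) (hI : TP K v I) :
    TP K v J := by
  obtain ⟨A, B, hA, hB, hd, h1, h2⟩ := hI
  exact ⟨A, B, hA.trans h, hB.trans h, hd, h1, h2⟩

/-- Bonferroni -/
theorem pow_bound {y : ℝ} (h0 : 0 ≤ y) (h1 : y ≤ 1) : ∀ n : ℕ,
    1 - n * y + (n.choose 2 : ℝ) * y ^ 2 - (n.choose 3 : ℝ) * y ^ 3 ≤ (1 - y) ^ n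
  | 0 => by norm_num
  | n + 1 => by
    have h2 := mul_le_mul_of_nonneg_right (pow_bound h0 h1 n) (by linarith : 0 ≤ 1 - y)
    rw [← pow_succ] at h2
    refine le_trans ?_ h2
    have h3 : ((n + 1).choose 2 : ℝ) = n + (n.choose 2 : ℝ) := by
      rw [Nat.choose_succ_succ' n 1]
      push_cast
      rw [Nat.choose_one_right]
    have h4 : ((n + 1).choose 3 : ℝ) = (n.choose 2 : ℝ) + (n.choose 3 : ℝ) := by
      rw [Nat.choose_succ_succ' n 2]
      push_cast
      rfl
    rw [h3, h4]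
    push_cast
    have h5 : 0 ≤ (n.choose 3 : ℝ) * y ^ 4 := by positivity
    nlinarith [h5]

/-- the function which is iterated -/
def gw (n : ℕ) (p t : ℝ) : ℝ := 1 - (1 - p * t) ^ n

theorem gw_mono {n : ℕ} {p s t : ℝ} (h0 : 0 ≤ p) (h1 : p ≤ 1) (ht : t ≤ 1) (hst : s ≤ t) :
    gw n p s ≤ gw n p t := by
  unfold gw
  have h2 : (1 - p * t) ^ n ≤ (1 - p * s) ^ n := by
    refine pow_le_pow_left₀ (by nlinarith) ?_ n
    nlinarith
  linarith

theorem gw_step {n : ℕ} {ε t : ℝ} (he : 0 < ε) (hn : 48 ≤ n) (ht : 4 * ε ≤ t) (ht1 : t ≤ 1) :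
    gw n ((1 + ε) / n) t ≤ t - t ^ 2 / 32 := by
  have hn' : (48:ℝ) ≤ n := by exact_mod_cast hn
  have hn0 : (0:ℝ) < n := by linarith
  have ht0 : 0 < t := by linarith
  set y : ℝ := (1 + ε) / n * t with hy
  have hny : n * y = (1 + ε) * t := by
    rw [hy]
    field_simp
  have hy0 : 0 ≤ y := by positivity
  have hy1 : y ≤ 1 := by
    by_contra h
    have : n * y > n := by nlinarith
    nlinarith
  have h1 := pow_bound hy0 hy1 n
  have h2 : (n.choose 2 : ℝ) = n * (n - 1) / 2 := Nat.cast_choose_two ℝ n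
  have h3 : (n.choose 3 : ℝ) ≤ n ^ 3 / 6 := by
    have := Nat.choose_le_pow_div (α := ℝ) 3 n
    simpa [Nat.factorial] using this
  have h4 : (n.choose 3 : ℝ) * y ^ 3 ≤ (n * y) ^ 3 / 6 := by
    have := mul_le_mul_of_nonneg_right h3 (by positivity : 0 ≤ y ^ 3)
    calc (n.choose 3 : ℝ) * y ^ 3 ≤ n ^ 3 / 6 * y ^ 3 := this
      _ = (n * y) ^ 3 / 6 := by ring
  have h5 : (n.choose 2 : ℝ) * y ^ 2 = (n * y) ^ 2 / 2 - (n * y) * y / 2 := by
    rw [h2]
    ring
  have h6 : y ≤ (n * y) / 48 := by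
    rw [le_div_iff₀ (by norm_num)]
    nlinarith
  have h7 : (n * y) * y / 2 ≤ (n * y) ^ 2 / 96 := by
    have := mul_le_mul_of_nonneg_left h6 (by positivity : 0 ≤ n * y)
    nlinarith
  set z : ℝ := n * y with hz
  have h8 : gw n ((1 + ε) / n) t ≤ z - z ^ 2 / 2 + z ^ 2 / 96 + z ^ 3 / 6 := by
    unfold gw
    rw [← hy]
    linarith
  refine h8.trans ?_
  -- `z = (1 + ε) t`, `ε ≤ t / 4`
  have hz0 : 0 < z := by rw [hny]; positivity
  have hz1 : z ≤ 5 / 4 := by
    rw [hny]
    nlinarith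
  have hz2 : t ≤ z := by
    rw [hny]
    nlinarith
  have hz3 : z ≤ t + t ^ 2 / 4 := by
    rw [hny]
    nlinarith
  -- `z² (1/2 - 1/96 - z/6) ≥ t² (27/96)`
  have h9 : (27:ℝ) / 96 ≤ 1 / 2 - 1 / 96 - z / 6 := by linarith
  have h10 : t ^ 2 ≤ z ^ 2 := by nlinarith
  have h11 : t ^ 2 * (27 / 96) ≤ z ^ 2 * (1 / 2 - 1 / 96 - z / 6) :=
    mul_le_mul h10 h9 (by norm_num) (by positivity)
  nlinarith

theorem th_le {n K : ℕ} {ε : ℝ} (he : 0 < ε) (hn : 48 ≤ n) (hp : (1 + ε) / n ≤ 1)
    (hK : 2 / ε ^ 2 ≤ K) : th n ((1 + ε) / n) K ≤ 4 * ε := by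
  have hn' : (48:ℝ) ≤ n := by exact_mod_cast hn
  have hp0 : 0 ≤ (1 + ε) / n := by positivity
  set p : ℝ := (1 + ε) / n with hpd
  rcases lt_or_ge 1 (4 * ε) with h | h
  · have := (th_mem (n := n) hp0 hp K).2
    linarith
  have key : ∀ k : ℕ, th n p k ≤ max (4 * ε) (1 - k * (ε ^ 2 / 2)) := by
    intro k
    induction k with
    | zero => simp [th]
    | succ k ih =>
      obtain ⟨h2, h3⟩ := th_mem (n := n) hp0 hp k
      show gw n p (th n p k) ≤ _
      rcases le_total (th n p k) (4 * ε) with h4 | h4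
      · refine le_trans (gw_mono hp0 hp h h4) (le_trans (gw_step he hn le_rfl h) ?_)
        refine le_trans ?_ (le_max_left _ _)
        have : 0 ≤ (4 * ε) ^ 2 / 32 := by positivity
        linarith
      · have h5 := gw_step he hn h4 h3
        have h6 : ε ^ 2 / 2 ≤ th n p k ^ 2 / 32 := by nlinarith
        rcases le_total (4 * ε) (1 - k * (ε ^ 2 / 2)) with h7 | h7
        · rw [max_eq_right h7] at ih
          refine le_trans ?_ (le_max_right _ _)
          push_cast
          linarith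
        · rw [max_eq_left h7] at ih
          refine le_trans ?_ (le_max_left _ _)
          have : 0 ≤ ε ^ 2 / 2 := by positivity
          linarith
  refine (key K).trans (max_le le_rfl ?_)
  have h8 : 2 ≤ K * ε ^ 2 := by
    rw [div_le_iff₀ (by positivity)] at hK
    exact hK
  nlinarith

end LR64
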