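import Pool.Agent.LR64.Defs

/-!
# Reflections: a reconstructible set lies in a set of minimum degree two
-/

set_option linter.unusedSectionVars false
set_option linter.style.whitespace false

open Finset

noncomputable section

namespace LR64

open LR82

variable {n : ℕ}

/-- A retraction onto `W` which collapses every pair of `P` not inside `W`. -/
def Retr (P : Finset (Sym2 (Fin n))) (W : Finset (Fin n)) (π : Fin n → Fin n) : Prop :=
  (∀ z, π z ∈ W) ∧ (∀ z ∈ W, π z = z) ∧
    ∀ z z', s(z, z') ∈ P → π z = π z' ∨ (z ∈ W ∧ z' ∈ W)

theorem No3.injective {x : Fin n → ℝ} (h3 : No3 x) : Function.Injective x := by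
  intro i k h
  exact h3 i i k (by rw [h]; ring)

/-- removing a vertex with at most one neighbour in `W` -/
theorem retr_erase {P : Finset (Sym2 (Fin n))} {W : Finset (Fin n)} {π : Fin n → Fin n}
    (hπ : Retr P W π) {v y : Fin n} (hv : v ∈ W) (hy : y ∈ W) (hyv : y ≠ v)
    (hu : ∀ a ∈ W, a ≠ v → s(v, a) ∈ P → a = y) :
    Retr P (W.erase v) (fun z => if π z = v then y else π z) := by
  obtain ⟨h1, h2, h4⟩ := hπ
  refine ⟨?_, ?_, ?_⟩
  · intro z
    by_cases h : π z = v
    · simp only [h, if_true]
      exact Finset.mem_erase.2 ⟨hyv, hy⟩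
    · simp only [h, if_false]
      exact Finset.mem_erase.2 ⟨h, h1 z⟩
  · intro z hz
    rw [Finset.mem_erase] at hz
    have h : π z = z := h2 z hz.2
    have h' : π z ≠ v := by rw [h]; exact hz.1
    simp only [h', if_false]
    exact h
  · intro z z' hzz
    rcases h4 z z' hzz with h | ⟨hz, hz'⟩
    · left
      simp only [h]
    · by_cases e : z = v
      · left
        by_cases e' : z' = v
        · rw [e, e']
        · subst e
          have h5 : z' = y := hu z' hz' e' hzz
          subst h5
          have h6 : π z = z := h2 z hv
          have h7 : π z' = z' := h2 z' hy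
          simp only [h6, h7, if_true]
          simp [hyv]
      · by_cases e' : z' = v
        · left
          subst e'
          have h5 : z = y := hu z hz e (by rw [Sym2.eq_swap]; exact hzz)
          subst h5
          have h6 : π z' = z' := h2 z' hv
          have h7 : π z = z := h2 z hy
          simp only [h6, h7, if_true]
          simp [hyv]
        · right
          exact ⟨Finset.mem_erase.2 ⟨e, hz⟩, Finset.mem_erase.2 ⟨e', hz'⟩⟩

/-- the reflection at `y` -/
theorem reflect_contra {x : Fin n → ℝ} (h3 : No3 x) {P : Finset (Sym2 (Fin n))}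
    {U W : Finset (Fin n)} (hU : 3 ≤ U.card) (h : IRec x P U) (hUW : U ⊆ W) {π : Fin n → Fin n}
    (hπ : Retr P W π) {v y : Fin n} (hv : v ∈ U) (hy : y ∈ W) (hyv : y ≠ v)
    (hu : ∀ a ∈ W, a ≠ v → s(v, a) ∈ P → a = y) : False := by
  obtain ⟨h1, h2, h4⟩ := hπ
  have hinj := h3.injective
  have hvW : v ∈ W := hUW hv
  have hπv : π v = v := h2 v hvW
  have hπy : π y = y := h2 y hy
  set f : Fin n → ℝ := fun z => if π z = v then 2 * x y - x z else x z with hf
  have fv : f v = 2 * x y - x v := by simp [hf, hπv]
  have fo : ∀ z ∈ W, z ≠ v → f z = x z := by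
    intro z hz hzv
    have : π z ≠ v := by rw [h2 z hz]; exact hzv
    simp [hf, this]
  have finj : Function.Injective f := by
    intro z z' hzz
    by_cases e : π z = v
    · by_cases e' : π z' = v
      · have e1 : f z = 2 * x y - x z := by simp [hf, e]
        have e2 : f z' = 2 * x y - x z' := by simp [hf, e']
        rw [e1, e2] at hzz
        exact hinj (by linarith)
      · have e1 : f z = 2 * x y - x z := by simp [hf, e]
        have e2 : f z' = x z' := by simp [hf, e']
        rw [e1, e2] at hzz
        have h5 : z = z' := h3 z y z' (by linarith)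
        rw [h5] at e
        exact absurd e e'
    · by_cases e' : π z' = v
      · have e1 : f z = x z := by simp [hf, e]
        have e2 : f z' = 2 * x y - x z' := by simp [hf, e']
        rw [e1, e2] at hzz
        have h5 : z = z' := h3 z y z' (by linarith)
        rw [h5] at e
        exact absurd e' e
      · have e1 : f z = x z := by simp [hf, e]
        have e2 : f z' = x z' := by simp [hf, e']
        rw [e1, e2] at hzz
        exact hinj hzz
  have fdist : ∀ z z', s(z, z') ∈ P → |f z - f z'| = |x z - x z'| := by
    intro z z' hzz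
    rcases h4 z z' hzz with h5 | ⟨hz, hz'⟩
    · by_cases e : π z = v
      · have e' : π z' = v := by rw [← h5]; exact e
        have e1 : f z = 2 * x y - x z := by simp [hf, e]
        have e2 : f z' = 2 * x y - x z' := by simp [hf, e']
        rw [e1, e2, abs_sub_comm (x z)]
        congr 1
        ring
      · have e' : π z' ≠ v := by rw [← h5]; exact e
        have e1 : f z = x z := by simp [hf, e]
        have e2 : f z' = x z' := by simp [hf, e']
        rw [e1, e2]
    · by_cases e : z = v
      · by_cases e' : z' = v
        · rw [e, e']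
          simp
        · have h6 : z' = y := hu z' hz' e' (by rw [← e]; exact hzz)
          rw [e, h6, fv, fo y hy hyv, abs_sub_comm (x v)]
          congr 1
          ring
      · by_cases e' : z' = v
        · have h6 : z = y := hu z hz e (by rw [Sym2.eq_swap, ← e']; exact hzz)
          rw [e', h6, fv, fo y hy hyv, abs_sub_comm (x y) (x v)]
          congr 1
          ring
        · rw [fo z hz e, fo z' hz' e']
  obtain ⟨s, t, hs, hst⟩ := h f finj fdist
  -- two further points of `U`
  have hc : 2 ≤ (U.erase v).card := by
    rw [Finset.card_erase_of_mem hv]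
    omega
  obtain ⟨a, ha, b, hb, hab⟩ := Finset.one_lt_card.1 (show 1 < (U.erase v).card by omega)
  rw [Finset.mem_erase] at ha hb
  have ea := hst a ha.2
  have eb := hst b hb.2
  rw [fo a (hUW ha.2) ha.1] at ea
  rw [fo b (hUW hb.2) hb.1] at eb
  have ev := hst v hv
  rw [fv] at ev
  have hxab : x a ≠ x b := fun hh => hab (hinj hh)
  have hs1 : s = 1 := by
    have h7 : (s - 1) * (x a - x b) = 0 := by linarith
    rcases mul_eq_zero.1 h7 with h8 | h8
    · linarith
    · exact absurd (by linarith) hxab
  rw [hs1] at ea ev
  have ht : t = 0 := by linarith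
  rw [ht] at ev
  have h9 : x y = x v := by linarith
  exact hyv (hinj h9)

/-- A set on which all injective placements agree up to isometry lies in a set in which every
vertex has two neighbours. -/
theorem core_of_irec {x : Fin n → ℝ} (h3 : No3 x) {P : Finset (Sym2 (Fin n))}
    {U : Finset (Fin n)} (hU : 3 ≤ U.card) (h : IRec x P U) :
    ∃ W, U ⊆ W ∧ Core P W := by
  classical
  have key : ∀ (k : ℕ) (W : Finset (Fin n)), W.card = k → U ⊆ W →
      (∃ π, Retr P W π) → ∃ W', U ⊆ W' ∧ Core P W' := by
    intro k
    induction k with
    | zero =>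
      intro W hW hUW _
      exfalso
      have := Finset.card_le_card hUW
      omega
    | succ k ih =>
      intro W hW hUW hπ
      obtain ⟨π, hπ⟩ := hπ
      by_cases hC : Core P W
      · exact ⟨W, hUW, hC⟩
      · unfold Core at hC
        push Not at hC
        obtain ⟨v, hv, hno⟩ := hC
        have hcard : 3 ≤ W.card := le_trans hU (Finset.card_le_card hUW)
        have hy : ∃ y ∈ W, y ≠ v ∧ ∀ a ∈ W, a ≠ v → s(v, a) ∈ P → a = y := by
          by_cases hn : ∃ a ∈ W, a ≠ v ∧ s(v, a) ∈ P
          · obtain ⟨y, hyW, hyv, hyP⟩ := hn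
            refine ⟨y, hyW, hyv, ?_⟩
            intro a ha hav haP
            by_contra hne
            exact hno a ha y hyW hne hav hyv haP hyP
          · push Not at hn
            obtain ⟨y, hyW, hyv⟩ := Finset.exists_mem_ne (show 1 < W.card by omega) v
            exact ⟨y, hyW, hyv, fun a ha hav haP => absurd haP (hn a ha hav)⟩
        obtain ⟨y, hyW, hyv, hu⟩ := hy
        by_cases hvU : v ∈ U
        · exact absurd (reflect_contra h3 hU h hUW hπ hvU hyW hyv hu) id
        · refine ih (W.erase v) ?_ ?_ ⟨_, retr_erase hπ hv hyW hyv hu⟩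
          · rw [Finset.card_erase_of_mem hv]
            omega
          · intro u hu'
            exact Finset.mem_erase.2 ⟨fun e => hvU (by rw [← e]; exact hu'), hUW hu'⟩
  refine key _ Finset.univ rfl (Finset.subset_univ U) ⟨id, ?_, ?_, ?_⟩
  · intro z
    exact Finset.mem_univ _
  · intro z _
    rfl
  · intro z z' _
    right
    exact ⟨Finset.mem_univ _, Finset.mem_univ _⟩

end LR64
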