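import Pool.Agent.LR64.Defs

/-!
# Two points with two disjoint long paths; connections and tadpoles are rare
-/

set_option linter.unusedSectionVars false
set_option linter.style.whitespace false

open Finset

noncomputable section

namespace LR64

open LR82

variable {n : ℕ}

theorem lp_path {A : Finset (Sym2 (Fin n))} : ∀ (k : ℕ) {W : Finset (Fin n)} {v : Fin n},
    v ∉ W → LP k W v A → ∃ u : ℕ → Fin n, u 0 = v ∧ Pth A k u ∧ ∀ i, 1 ≤ i → i ≤ k → u i ∈ W
  | 0, W, v, _, _ => ⟨fun _ => v, rfl, ⟨fun i j hi hj _ => by omega, fun i hi => by omega⟩,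
      fun i h1 h2 => by omega⟩
  | k + 1, W, v, hv, ⟨u1, hu1, he, hlp⟩ => by
    obtain ⟨u, h0, hp, hW⟩ := lp_path k (Finset.notMem_erase u1 W) hlp
    refine ⟨fun i => Nat.casesOn i v u, rfl, ⟨?_, ?_⟩, ?_⟩
    · intro i j hi hj h
      have key : ∀ m, m ≤ k → u m ≠ v := by
        intro m hm h
        rcases Nat.eq_zero_or_pos m with rfl | hm0
        · rw [h0] at h
          exact hv (h ▸ hu1)
        · exact hv (h ▸ Finset.mem_of_mem_erase (hW m hm0 hm))
      rcases i with _ | i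
      · rcases j with _ | j
        · rfl
        · exact absurd h.symm (key j (by omega))
      · rcases j with _ | j
        · exact absurd h (key i (by omega))
        · have := hp.1 i j (by omega) (by omega) h
          omega
    · intro i hi
      rcases i with _ | i
      · show s(v, u 0) ∈ A
        rw [h0]
        exact he
      · exact hp.2 i (by omega)
    · intro i h1 h2
      rcases i with _ | i
      · omega
      · show u i ∈ W
        rcases Nat.eq_zero_or_pos i with rfl | hi0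
        · rw [h0]
          exact hu1
        · exact Finset.mem_of_mem_erase (hW i hi0 (by omega))

theorem path_lp {A : Finset (Sym2 (Fin n))} : ∀ (k : ℕ) {W : Finset (Fin n)} {u : ℕ → Fin n},
    Pth A k u → (∀ i, 1 ≤ i → i ≤ k → u i ∈ W) → LP k W (u 0) A
  | 0, _, _, _, _ => trivial
  | k + 1, W, u, hp, hW => by
    refine ⟨u 1, hW 1 le_rfl (by omega), hp.2 0 (by omega), ?_⟩
    refine path_lp k (u := fun i => u (i + 1)) ⟨?_, ?_⟩ ?_
    · intro i j hi hj h
      have := hp.1 (i + 1) (j + 1) (by omega) (by omega) h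
      omega
    · intro i hi
      exact hp.2 (i + 1) (by omega)
    · intro i h1 h2
      refine Finset.mem_erase.2 ⟨fun h => ?_, hW (i + 1) (by omega) (by omega)⟩
      have := hp.1 (i + 1) 1 (by omega) (by omega) h
      omega

/-- the pairs of consecutive vertices -/
def PE (k : ℕ) (u : ℕ → Fin n) : Finset (Sym2 (Fin n)) :=
  (Finset.range k).image (fun i => s(u i, u (i + 1)))

theorem PE_subset {A : Finset (Sym2 (Fin n))} {k : ℕ} {u : ℕ → Fin n} (h : Pth A k u) :
    PE k u ⊆ A := by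
  intro e he
  obtain ⟨i, hi, rfl⟩ := Finset.mem_image.1 he
  exact h.2 i (Finset.mem_range.1 hi)

theorem Pth_PE {A : Finset (Sym2 (Fin n))} {k : ℕ} {u : ℕ → Fin n} (h : Pth A k u) :
    Pth (PE k u) k u :=
  ⟨h.1, fun i hi => Finset.mem_image.2 ⟨i, Finset.mem_range.2 hi, rfl⟩⟩

theorem tp_paths {K : ℕ} {v : Fin n} {A : Finset (Sym2 (Fin n))} (h : TP K v A) :
    ∃ u z : ℕ → Fin n, u 0 = v ∧ z 0 = v ∧ Pth A K u ∧ Pth A K z ∧
      Disjoint (PE K u) (PE K z) := by
  obtain ⟨I, J, hI, hJ, hd, h1, h2⟩ := h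
  obtain ⟨u, hu0, hu, _⟩ := lp_path K (Finset.notMem_erase v univ) h1
  obtain ⟨z, hz0, hz, _⟩ := lp_path K (Finset.notMem_erase v univ) h2
  exact ⟨u, z, hu0, hz0, ⟨hu.1, fun i hi => hI (hu.2 i hi)⟩, ⟨hz.1, fun i hi => hJ (hz.2 i hi)⟩,
    Finset.disjoint_of_subset_left (PE_subset hu)
      (Finset.disjoint_of_subset_right (PE_subset hz) hd)⟩

theorem lp_of_pth {K : ℕ} {v : Fin n} {A : Finset (Sym2 (Fin n))} {u : ℕ → Fin n}
    (h0 : u 0 = v) (hu : Pth A K u) : LP K (univ.erase v) v A := by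
  have := path_lp K (W := univ.erase v) hu (fun i h1 h2 => Finset.mem_erase.2
    ⟨fun h => by
      have := hu.1 i 0 h2 (by omega) (h.trans h0.symm)
      omega, Finset.mem_univ _⟩)
  rwa [h0] at this

theorem tp_of_paths {K : ℕ} {v : Fin n} {A : Finset (Sym2 (Fin n))} {u z : ℕ → Fin n}
    (hu0 : u 0 = v) (hz0 : z 0 = v) (hu : Pth A K u) (hz : Pth A K z)
    (hd : Disjoint (PE K u) (PE K z)) : TP K v (PE K u ∪ PE K z) :=
  ⟨PE K u, PE K z, Finset.subset_union_left, Finset.subset_union_right, hd,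
    lp_of_pth hu0 (Pth_PE hu), lp_of_pth hz0 (Pth_PE hz)⟩

theorem conn_of_meet {K : ℕ} {v w : Fin n} (hvw : v ≠ w) {A : Finset (Sym2 (Fin n))}
    {a b : ℕ → Fin n} (ha : Pth A K a) (hb : Pth A K b) (ha0 : a 0 = v) (hb0 : b 0 = w)
    {e : Sym2 (Fin n)} (he : e ∈ PE K a) (he' : e ∈ PE K b) : Conn (2 * K) v w A := by
  classical
  have hex : ∃ i, i ≤ K ∧ ∃ j, j ≤ K ∧ a i = b j := by
    obtain ⟨i, hi, h1⟩ := Finset.mem_image.1 he
    obtain ⟨j, hj, h2⟩ := Finset.mem_image.1 he'
    rw [Finset.mem_range] at hi hj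
    have h3 : s(a i, a (i + 1)) = s(b j, b (j + 1)) := h1.trans h2.symm
    rw [Sym2.eq_iff] at h3
    rcases h3 with ⟨h3, _⟩ | ⟨h3, _⟩
    · exact ⟨i, by omega, j, by omega, h3⟩
    · exact ⟨i, by omega, j + 1, by omega, h3⟩
  set i := Nat.find hex with hi
  obtain ⟨hiK, j, hjK, hij⟩ := Nat.find_spec hex
  rw [← hi] at hiK hij
  have hmin : ∀ m, m < i → ∀ l, l ≤ K → a m ≠ b l := by
    intro m hm l hl h
    exact Nat.find_min hex hm ⟨by omega, l, hl, h⟩
  refine ⟨i + j, fun k => if k ≤ i then a k else b (i + j - k), ?_, by omega, ⟨?_, ?_⟩, ?_, ?_⟩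
  · rcases Nat.eq_zero_or_pos i with h | h
    · rcases Nat.eq_zero_or_pos j with h' | h'
      · exfalso
        rw [h, h', ha0, hb0] at hij
        exact hvw hij
      · omega
    · omega
  · intro k l hk hl h
    simp only at h
    by_cases h1 : k ≤ i
    · by_cases h2 : l ≤ i
      · rw [if_pos h1, if_pos h2] at h
        exact ha.1 k l (by omega) (by omega) h
      · rw [if_pos h1, if_neg h2] at h
        exfalso
        rcases Nat.lt_or_ge k i with h3 | h3
        · exact hmin k h3 _ (by omega) h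
        · have h4 : k = i := by omega
          rw [h4, hij] at h
          have := hb.1 _ _ (by omega) (by omega) h
          omega
    · by_cases h2 : l ≤ i
      · rw [if_neg h1, if_pos h2] at h
        exfalso
        rcases Nat.lt_or_ge l i with h3 | h3
        · exact hmin l h3 _ (by omega) h.symm
        · have h4 : l = i := by omega
          rw [h4, hij] at h
          have := hb.1 _ _ (by omega) (by omega) h
          omega
      · rw [if_neg h1, if_neg h2] at h
        have := hb.1 _ _ (by omega) (by omega) h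
        omega
  · intro k hk
    simp only
    by_cases h1 : k + 1 ≤ i
    · rw [if_pos (by omega), if_pos h1]
      exact ha.2 k (by omega)
    · have h5 : (if k ≤ i then a k else b (i + j - k)) = b (i + j - k) := by
        by_cases h2 : k ≤ i
        · have h3 : k = i := by omega
          rw [if_pos h2, h3, hij]
          congr 1
          omega
        · rw [if_neg h2]
      rw [h5, if_neg h1]
      have h6 := hb.2 (i + j - (k + 1)) (by omega)
      have h7 : i + j - (k + 1) + 1 = i + j - k := by omega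
      rw [h7] at h6
      rwa [Sym2.eq_swap]
  · simp only
    rw [if_pos (by omega), ha0]
  · simp only
    by_cases h1 : i + j ≤ i
    · have h2 : j = 0 := by omega
      rw [if_pos h1, h2, Nat.add_zero, hij, h2, hb0]
    · rw [if_neg h1, Nat.sub_self, hb0]

theorem tp_tp {K : ℕ} {v w : Fin n} (hvw : v ≠ w) {A : Finset (Sym2 (Fin n))}
    (h1 : TP K v A) (h2 : TP K w A) : Occ (TP K v) (TP K w) A ∨ Conn (2 * K) v w A := by
  classical
  obtain ⟨u, z, hu0, hz0, hu, hz, hd⟩ := tp_paths h1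
  obtain ⟨u', z', hu0', hz0', hu', hz', hd'⟩ := tp_paths h2
  by_cases hdis : Disjoint (PE K u ∪ PE K z) (PE K u' ∪ PE K z')
  · refine Or.inl ⟨_, _, Finset.union_subset (PE_subset hu) (PE_subset hz),
      Finset.union_subset (PE_subset hu') (PE_subset hz'), hdis,
      tp_of_paths hu0 hz0 hu hz hd, tp_of_paths hu0' hz0' hu' hz' hd'⟩
  · right
    rw [Finset.not_disjoint_iff] at hdis
    obtain ⟨e, he, he'⟩ := hdis
    rw [Finset.mem_union] at he he'
    rcases he with he | he
    · rcases he' with he' | he'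
      · exact conn_of_meet hvw hu hu' hu0 hu0' he he'
      · exact conn_of_meet hvw hu hz' hu0 hz0' he he'
    · rcases he' with he' | he'
      · exact conn_of_meet hvw hz hu' hz0 hu0' he he'
      · exact conn_of_meet hvw hz hz' hz0 hz0' he he'

/-! ### First moments -/

open Classical in
/-- injective windows from `v` -/
def Wi (L : ℕ) : Finset (Fin (L + 1) → Fin n) := univ.filter Function.Injective

theorem Wi_card (L : ℕ) : ((Wi L : Finset (Fin (L + 1) → Fin n)).card : ℝ) ≤ (n : ℝ) ^ (L + 1) := by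
  classical
  have : (Wi L : Finset (Fin (L + 1) → Fin n)).card ≤ n ^ (L + 1) := by
    refine (Finset.card_le_card (Finset.filter_subset _ _)).trans ?_
    simp
  exact_mod_cast this

theorem pth_window {A : Finset (Sym2 (Fin n))} {L : ℕ} {u : ℕ → Fin n} (h : Pth A L u) :
    (fun k : Fin (L + 1) => u k) ∈ (Wi L : Finset (Fin (L + 1) → Fin n)) ∧
      Wp L (fun k : Fin (L + 1) => u k) ⊆ A := by
  classical
  refine ⟨?_, ?_⟩
  · unfold Wi
    refine Finset.mem_filter.2 ⟨Finset.mem_univ _, fun a b hab => ?_⟩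
    have := h.1 a b (by omega) (by omega) hab
    exact Fin.ext this
  · intro e he
    unfold Wp at he
    obtain ⟨k, _, rfl⟩ := Finset.mem_image.1 he
    have := h.2 k k.2
    simpa using this

theorem conn_prob {p : ℝ} (h0 : 0 ≤ p) (h1 : p ≤ 1) (J : ℕ) (v w : Fin n) :
    Pr p (Epairs n) (Conn J v w) ≤ ∑ L ∈ Finset.Icc 1 J,
      ∑ u ∈ (Wi L : Finset (Fin (L + 1) → Fin n)),
        if u 0 = v ∧ u (Fin.last L) = w then p ^ L else 0 := by
  classical
  have h2 : Pr p (Epairs n) (Conn J v w) ≤ Pr p (Epairs n) (fun A => ∃ L ∈ Finset.Icc 1 J,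
      ∃ u ∈ (Wi L : Finset (Fin (L + 1) → Fin n)),
        (u 0 = v ∧ u (Fin.last L) = w) ∧ Wp L u ⊆ A) := by
    refine Pr_mono h0 h1 fun A _ => ?_
    rintro ⟨L, u, hL1, hLJ, hp, hu0, huL⟩
    obtain ⟨hw1, hw2⟩ := pth_window hp
    exact ⟨L, Finset.mem_Icc.2 ⟨hL1, hLJ⟩, _, hw1, ⟨by simpa using hu0, by simpa using huL⟩, hw2⟩
  refine h2.trans ((Pr_exists h0 h1 _ _ _).trans (Finset.sum_le_sum fun L _ => ?_))
  refine (Pr_exists h0 h1 _ _ _).trans (Finset.sum_le_sum fun u hu => ?_)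
  have hinj : Function.Injective u := (Finset.mem_filter.1 hu).2
  by_cases hc : u 0 = v ∧ u (Fin.last L) = w
  · rw [if_pos hc]
    have h3 := Pr_subset p (Wp_subset hinj)
    rw [Wp_card hinj] at h3
    rw [← h3]
    exact Pr_mono h0 h1 fun A _ h => h.2
  · rw [if_neg hc]
    have h3 : Pr p (Epairs n) (fun A => (u 0 = v ∧ u (Fin.last L) = w) ∧ Wp L u ⊆ A) =
        0 := by
      rw [Pr_eq]
      simp only [hc, false_and, if_false]
      exact Ex_const p _ 0
    exact h3.le

theorem sum_conn {p : ℝ} (h0 : 0 ≤ p) (h1 : p ≤ 1) (J : ℕ) :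
    ∑ v : Fin n, ∑ w : Fin n, Pr p (Epairs n) (Conn J v w) ≤
      ∑ L ∈ Finset.Icc 1 J, (n : ℝ) ^ (L + 1) * p ^ L := by
  classical
  refine (Finset.sum_le_sum fun v _ => Finset.sum_le_sum fun w _ =>
    conn_prob h0 h1 J v w).trans ?_
  have h2 : ∑ v : Fin n, ∑ w : Fin n, ∑ L ∈ Finset.Icc 1 J,
      ∑ u ∈ (Wi L : Finset (Fin (L + 1) → Fin n)),
        (if u 0 = v ∧ u (Fin.last L) = w then p ^ L else 0) =
      ∑ L ∈ Finset.Icc 1 J, ∑ u ∈ (Wi L : Finset (Fin (L + 1) → Fin n)), p ^ L := by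
    have h3 : ∀ v : Fin n, ∑ w : Fin n, ∑ L ∈ Finset.Icc 1 J,
        ∑ u ∈ (Wi L : Finset (Fin (L + 1) → Fin n)),
          (if u 0 = v ∧ u (Fin.last L) = w then p ^ L else 0) =
        ∑ L ∈ Finset.Icc 1 J, ∑ u ∈ (Wi L : Finset (Fin (L + 1) → Fin n)),
          ∑ w : Fin n, (if u 0 = v ∧ u (Fin.last L) = w then p ^ L else 0) := by
      intro v
      rw [Finset.sum_comm]
      refine Finset.sum_congr rfl fun L _ => ?_
      rw [Finset.sum_comm]
    simp_rw [h3]
    rw [Finset.sum_comm]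
    refine Finset.sum_congr rfl fun L _ => ?_
    rw [Finset.sum_comm]
    refine Finset.sum_congr rfl fun u _ => ?_
    simp_rw [ite_and]
    simp
  rw [h2]
  refine Finset.sum_le_sum fun L _ => ?_
  rw [Finset.sum_const, nsmul_eq_mul]
  exact mul_le_mul_of_nonneg_right (Wi_card L) (pow_nonneg h0 _)

theorem tad_prob {p : ℝ} (h0 : 0 ≤ p) (h1 : p ≤ 1) (J : ℕ) (v : Fin n) :
    Pr p (Epairs n) (Tad J v) ≤ ∑ L ∈ Finset.Icc 2 J,
      ∑ u ∈ (Wi L : Finset (Fin (L + 1) → Fin n)), ∑ _i ∈ Finset.range L,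
        if u 0 = v then p ^ (L + 1) else 0 := by
  classical
  have h2 : Pr p (Epairs n) (Tad J v) ≤ Pr p (Epairs n) (fun A => ∃ L ∈ Finset.Icc 2 J,
      ∃ u ∈ (Wi L : Finset (Fin (L + 1) → Fin n)), ∃ i ∈ Finset.range L,
        (u 0 = v ∧ i + 2 ≤ L) ∧
          insert s(u (Fin.last L), u (Fin.ofNat (L + 1) i)) (Wp L u) ⊆ A) := by
    refine Pr_mono h0 h1 fun A _ => ?_
    rintro ⟨L, u, i, hLJ, hp, hu0, hiL, he⟩
    obtain ⟨hw1, hw2⟩ := pth_window hp
    refine ⟨L, Finset.mem_Icc.2 ⟨by omega, hLJ⟩, _, hw1, i, Finset.mem_range.2 (by omega),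
      ⟨by simpa using hu0, hiL⟩, Finset.insert_subset ?_ hw2⟩
    have hi : i % (L + 1) = i := Nat.mod_eq_of_lt (by omega)
    simpa [hi] using he
  refine h2.trans ((Pr_exists h0 h1 _ _ _).trans (Finset.sum_le_sum fun L _ => ?_))
  refine (Pr_exists h0 h1 _ _ _).trans (Finset.sum_le_sum fun u hu => ?_)
  refine (Pr_exists h0 h1 _ _ _).trans (Finset.sum_le_sum fun i hi => ?_)
  have hinj : Function.Injective u := (Finset.mem_filter.1 hu).2
  by_cases hc : u 0 = v ∧ i + 2 ≤ L
  · rw [if_pos hc.1]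
    have hiv : ((Fin.ofNat (L + 1) i : Fin (L + 1)) : ℕ) = i := by
      simp [Nat.mod_eq_of_lt (show i < L + 1 by omega)]
    have hnot : s(u (Fin.last L), u (Fin.ofNat (L + 1) i)) ∉ Wp L u := by
      intro h
      unfold Wp at h
      obtain ⟨k, _, hk⟩ := Finset.mem_image.1 h
      rw [Sym2.eq_iff] at hk
      rcases hk with ⟨hk1, hk2⟩ | ⟨hk1, hk2⟩
      · have := congrArg Fin.val (hinj hk1)
        simp only [Fin.val_castSucc, Fin.val_last] at this
        omega
      · have h3 := congrArg Fin.val (hinj hk1)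
        have h4 := congrArg Fin.val (hinj hk2)
        rw [hiv] at h3
        simp only [Fin.val_castSucc, Fin.val_succ, Fin.val_last] at h3 h4
        omega
    have hsub : insert s(u (Fin.last L), u (Fin.ofNat (L + 1) i)) (Wp L u) ⊆ Epairs n := by
      refine Finset.insert_subset ?_ (Wp_subset hinj)
      rw [mem_Epairs]
      intro h
      have := congrArg Fin.val (hinj h)
      rw [hiv, Fin.val_last] at this
      omega
    have h3 := Pr_subset p hsub
    rw [Finset.card_insert_of_notMem hnot, Wp_card hinj] at h3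
    rw [← h3]
    exact Pr_mono h0 h1 fun A _ h => h.2
  · have h3 : Pr p (Epairs n) (fun A => (u 0 = v ∧ i + 2 ≤ L) ∧
          insert s(u (Fin.last L), u (Fin.ofNat (L + 1) i)) (Wp L u) ⊆ A) = 0 := by
      rw [Pr_eq]
      simp only [hc, false_and, if_false]
      exact Ex_const p _ 0
    rw [h3]
    split_ifs
    · exact pow_nonneg h0 _
    · exact le_rfl

theorem sum_tad {p : ℝ} (h0 : 0 ≤ p) (h1 : p ≤ 1) (J : ℕ) :
    ∑ v : Fin n, Pr p (Epairs n) (Tad J v) ≤
      ∑ L ∈ Finset.Icc 2 J, (L : ℝ) * (n : ℝ) ^ (L + 1) * p ^ (L + 1) := by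
  classical
  refine (Finset.sum_le_sum fun v _ => tad_prob h0 h1 J v).trans ?_
  rw [Finset.sum_comm]
  refine Finset.sum_le_sum fun L _ => ?_
  rw [Finset.sum_comm]
  have h2 : ∀ u ∈ (Wi L : Finset (Fin (L + 1) → Fin n)),
      ∑ v : Fin n, ∑ _i ∈ Finset.range L, (if u 0 = v then p ^ (L + 1) else 0) =
        L * p ^ (L + 1) := by
    intro u _
    simp_rw [Finset.sum_const, Finset.card_range, nsmul_eq_mul]
    rw [← Finset.mul_sum]
    simp
  rw [Finset.sum_congr rfl h2, Finset.sum_const, nsmul_eq_mul]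
  have h3 := mul_le_mul_of_nonneg_right (Wi_card (n := n) L)
    (mul_nonneg (Nat.cast_nonneg L) (pow_nonneg h0 (L + 1)) : (0:ℝ) ≤ L * p ^ (L + 1))
  calc _ ≤ (n : ℝ) ^ (L + 1) * (L * p ^ (L + 1)) := h3
    _ = _ := by ring

end LR64
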