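import Pool.Agent.LR64.Cheb
import Pool.Agent.LR64.Dich
import Pool.Agent.LR64.TwoPt

/-!
# The upper bound
-/

set_option linter.unusedSectionVars false
set_option linter.style.whitespace false

open Finset

noncomputable section

namespace LR64

open LR82

/-- `ε ≤ 1` -/
theorem upper_small {ε : ℝ} (he : 0 < ε) (he1 : ε ≤ 1) : ∃ (C : ℝ) (n0 : ℕ), 0 ≤ C ∧
    ∀ n : ℕ, n0 ≤ n →
      Pr ((1 + ε) / n) (Epairs n) (fun P => ∃ W : Finset (Fin n),
        17 * ε ^ 2 * n < W.card ∧ Core P W) ≤ C / n := by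
  classical
  obtain ⟨K, hK⟩ := exists_nat_ge (2 / ε ^ 2)
  refine ⟨(1 + 2 * K * 2 ^ (2 * K)) * 4 / ε ^ 4 + (2 * K * (2 * K) * 2 ^ (2 * K + 1)) * 2 / ε ^ 2,
    48, by positivity, fun n hn48 => ?_⟩
  have hn' : (48:ℝ) ≤ n := by exact_mod_cast hn48
  have hn0 : (0:ℝ) < n := by linarith
  set p : ℝ := (1 + ε) / n with hp
  have hp0 : 0 ≤ p := by positivity
  have hp2 : p ≤ 1 := by
    rw [hp, div_le_one hn0]
    linarith
  have key : Pr p (Epairs n) (fun P => ∃ W : Finset (Fin n),
      17 * ε ^ 2 * n < W.card ∧ Core P W) ≤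
      Pr p (Epairs n) (fun P => (16 + 1 / 2) * ε ^ 2 * n ≤ Nu (TP K) P ∨
        1 / 2 * ε ^ 2 * n ≤ Nu (Tad (2 * K)) P) := by
    refine Pr_mono hp0 hp2 fun P _ => ?_
    rintro ⟨W, hcard, hW⟩
    have h1 : (W.card : ℝ) ≤ Nu (TP K) P + Nu (Tad (2 * K)) P := by
      unfold Nu
      rw [← Finset.sum_add_distrib]
      have h3 : (W.card : ℝ) = ∑ v ∈ W, (1:ℝ) := by simp
      rw [h3]
      refine (Finset.sum_le_sum (g := fun v => (if TP K v P then (1:ℝ) else 0) +
        (if Tad (2 * K) v P then 1 else 0)) fun v hv => ?_).trans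
        (Finset.sum_le_sum_of_subset_of_nonneg (Finset.subset_univ W) fun v _ _ => ?_)
      · rcases core_tp (K := K) hW hv with h | h
        · rw [if_pos h]
          have : (0:ℝ) ≤ if Tad (2 * K) v P then 1 else 0 := by split_ifs <;> norm_num
          linarith
        · rw [if_pos h]
          have : (0:ℝ) ≤ if TP K v P then 1 else 0 := by split_ifs <;> norm_num
          linarith
      · have h4 : (0:ℝ) ≤ if TP K v P then 1 else 0 := by split_ifs <;> norm_num
        have h5 : (0:ℝ) ≤ if Tad (2 * K) v P then 1 else 0 := by split_ifs <;> norm_num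
        linarith
    by_contra hcon
    rw [not_or, not_le, not_le] at hcon
    linarith [hcon.1, hcon.2]
  refine key.trans ((Pr_or hp0 hp2 _ _ _).trans ?_)
  have t1 := Pr_TP_tail (K := K) (n := n) he he1 hn48 hK (fun h => tp_tp h)
    (fun h h' => sum_conn h h' _)
  have t2 := Pr_Tad_tail (K := K) (n := n) he he1 hn48 (fun h h' => sum_tad h h' _)
  rw [add_div]
  exact add_le_add t1 t2

/-- all `ε` -/
theorem upper_core {ε : ℝ} (he : 0 < ε) : ∃ (C : ℝ) (n0 : ℕ), 0 ≤ C ∧
    ∀ n : ℕ, n0 ≤ n →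
      Pr ((1 + ε) / n) (Epairs n) (fun P => ∃ W : Finset (Fin n),
        17 * min ε 1 ^ 2 * n < W.card ∧ Core P W) ≤ C / n := by
  rcases le_total ε 1 with h | h
  · rw [min_eq_left h]
    exact upper_small he h
  · refine ⟨0, 0, le_rfl, fun n _ => ?_⟩
    rw [min_eq_right h, zero_div]
    refine le_of_eq ?_
    have h1 : (fun P : Finset (Sym2 (Fin n)) => ∃ U : Finset (Fin n),
        17 * (1:ℝ) ^ 2 * n < U.card ∧ Core P U) = fun _ => False := by
      funext P
      rw [eq_iff_iff, iff_false]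
      rintro ⟨U, hU, _⟩
      have h2 : (U.card : ℝ) ≤ n := by
        have := Finset.card_le_univ U
        rw [Fintype.card_fin] at this
        exact_mod_cast this
      have h3 : (0:ℝ) ≤ n := Nat.cast_nonneg n
      linarith
    rw [h1, Pr_eq]
    simp [Ex_const]

end LR64
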